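import Mathlib

/-!
A representation of a free group in `SL_2 (ℤ[X])` in which the elements with constant trace are
exactly the conjugates of the powers of the basis elements.
-/

set_option autoImplicit false

namespace Pool.Agent.EvA

open Polynomial

/-- `1 + X a b^T` with `a = (1, i)`, `b = (-i, 1)`. -/
noncomputable def sgen (i : ℤ) : Matrix.SpecialLinearGroup (Fin 2) ℤ[X] :=
  ⟨!![1 - X * C i, X; -(X * C (i * i)), 1 + X * C i], by
    rw [Matrix.det_fin_two_of, C_mul]; ring⟩

/-- The representation. -/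
noncomputable def sig (k : ℕ) : FreeGroup (ZMod k) →* Matrix.SpecialLinearGroup (Fin 2) ℤ[X] :=
  FreeGroup.lift (fun i => sgen (i.val : ℤ))

/-- The trace. -/
noncomputable def tau (k : ℕ) (g : FreeGroup (ZMod k)) : ℤ[X] := Matrix.trace (sig k g).1

-- BEGIN zpw
/-- ROW zpw. Induction on `m` (both directions); `N_i ^ 2 = 0`. -/
theorem sgen_zpow (i m : ℤ) : (sgen i ^ m).1 =
    !![1 - C m * X * C i, C m * X; -(C m * X * C (i * i)), 1 + C m * X * C i] := by
  have h1 : (sgen i).1 = !![1 - X * C i, X; -(X * C (i * i)), 1 + X * C i] := rfl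
  have h2 : ((sgen i)⁻¹).1 = !![1 + X * C i, -X; X * C (i * i), 1 - X * C i] := by
    rw [Matrix.SpecialLinearGroup.coe_inv, h1, Matrix.adjugate_fin_two_of, neg_neg]
  induction m using Int.induction_on with
  | zero =>
    rw [zpow_zero]
    ext a b
    fin_cases a <;> fin_cases b <;> simp
  | succ n ih =>
    rw [zpow_add_one, Matrix.SpecialLinearGroup.coe_mul, ih, h1, Matrix.mul_fin_two]
    ext a b : 1
    fin_cases a <;> fin_cases b <;> simp [C_mul] <;> ring
  | pred n ih =>
    rw [zpow_sub_one, Matrix.SpecialLinearGroup.coe_mul, ih, h2, Matrix.mul_fin_two]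
    ext a b : 1
    fin_cases a <;> fin_cases b <;> simp [C_mul] <;> ring
-- END zpw

-- BEGIN tcj
/-- ROW tcj. The trace is a class function, and it is `2` on the powers of the generators
(`sgen_zpow`). -/
theorem tau_conj (k : ℕ) (w : FreeGroup (ZMod k)) (i : ZMod k) (m : ℤ) :
    tau k (w * FreeGroup.of i ^ m * w⁻¹) = 2 := by
  have hof : sig k (FreeGroup.of i) = sgen (i.val : ℤ) := by
    unfold sig
    exact FreeGroup.lift_apply_of
  have h1 : tau k (w * FreeGroup.of i ^ m * w⁻¹) = Matrix.trace (sgen (i.val : ℤ) ^ m).1 := by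
    unfold tau
    rw [map_mul, map_mul, map_inv]
    rw [Matrix.SpecialLinearGroup.coe_mul, Matrix.trace_mul_comm, ← Matrix.SpecialLinearGroup.coe_mul]
    rw [inv_mul_cancel_left, map_zpow, hof]
  rw [h1, sgen_zpow, Matrix.trace_fin_two_of]
  ring
-- END tcj

/-- The element of a list of syllables. -/
def wd (k : ℕ) (L : List (ZMod k × ℤ)) : FreeGroup (ZMod k) :=
  (L.map fun p => FreeGroup.of p.1 ^ p.2).prod

-- BEGIN mat
/-- ROW mat. Products of matrices of polynomials with entries of bounded degree: the degrees and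
the top coefficients (`Polynomial.coeff_mul_of_natDegree_le`, sums over `Fin 2`). -/
theorem top_mul (A D : Matrix (Fin 2) (Fin 2) ℤ[X]) (p q : ℕ)
    (hA : ∀ i j, (A i j).natDegree ≤ p) (hD : ∀ i j, (D i j).natDegree ≤ q) :
    (∀ i j, ((A * D) i j).natDegree ≤ p + q) ∧
    ∀ i j, ((A * D) i j).coeff (p + q) = ∑ l, (A i l).coeff p * (D l j).coeff q := by
  constructor
  · intro i j
    rw [Matrix.mul_apply]
    exact natDegree_sum_le_of_forall_le _ _ fun l _ => natDegree_mul_le_of_le (hA i l) (hD l j)
  · intro i j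
    rw [Matrix.mul_apply, finsetSum_coeff]
    exact Finset.sum_congr rfl fun l _ => coeff_mul_add_eq_of_natDegree_le (hA i l) (hD l j)
-- END mat

-- BEGIN top
private theorem top_gen (a b c d : ℤ[X]) (P : ℤ[X] → ℤ → Prop) (x m : ℤ) (h1 : P a (m * (1 * -x)))
    (h2 : P b (m * (1 * 1))) (h3 : P c (m * (x * -x))) (h4 : P d (m * (x * 1))) :
    ∀ i j, P (!![a, b; c, d] i j) (m * (![1, x] i * ![-x, 1] j)) := by
  intro i j
  fin_cases i <;> fin_cases j
  · exact h1
  · exact h2
  · exact h3
  · exact h4

private theorem top_one (x m : ℤ) : (∀ i j, ((sgen x ^ m).1 i j).natDegree ≤ 1) ∧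
    ∀ i j, ((sgen x ^ m).1 i j).coeff 1 = m * (![1, x] i * ![-x, 1] j) := by
  have hX : ∀ a b : ℤ, (C a * X * C b : ℤ[X]).natDegree ≤ 1 := fun a b =>
    (natDegree_mul_C_le _ _).trans ((natDegree_C_mul_le _ _).trans natDegree_X_le)
  have h1 : (1 : ℤ[X]).natDegree ≤ 1 := by
    rw [natDegree_one]
    exact Nat.zero_le _
  have key := top_gen (1 - C m * X * C x) (C m * X) (-(C m * X * C (x * x))) (1 + C m * X * C x)
    (fun p v => p.natDegree ≤ 1 ∧ p.coeff 1 = v) x m
    ⟨(natDegree_sub_le _ _).trans (max_le h1 (hX m x)), by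
      rw [coeff_sub, coeff_mul_C, coeff_C_mul, coeff_X_one, coeff_one]
      simp⟩
    ⟨(natDegree_C_mul_le _ _).trans natDegree_X_le, by
      rw [coeff_C_mul, coeff_X_one]
      ring⟩
    ⟨(natDegree_neg _).le.trans (hX m (x * x)), by
      rw [coeff_neg, coeff_mul_C, coeff_C_mul, coeff_X_one]
      ring⟩
    ⟨(natDegree_add_le _ _).trans (max_le h1 (hX m x)), by
      rw [coeff_add, coeff_mul_C, coeff_C_mul, coeff_X_one, coeff_one]
      simp⟩
  rw [sgen_zpow]
  exact ⟨fun i j => (key i j).1, fun i j => (key i j).2⟩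

/-- ROW top. The top coefficients of the matrix of a list of syllables without equal neighbours and
without zero exponents: `c * a_(first) b_(last)^T` with `c ≠ 0`, `a = (1, i)`, `b = (-i, 1)`. Induction
on the list (`top_mul` with `sgen_zpow`): the new factor is `m * (b_i . a_j) = m * (j - i) ≠ 0`,
the values in `ZMod k` being different. -/
theorem top_list (k : ℕ) [NeZero k] (L : List (ZMod k × ℤ)) (hL : L ≠ [])
    (h0 : ∀ p ∈ L, p.2 ≠ 0) (hc : L.IsChain (fun p q => p.1 ≠ q.1)) :
    (∀ i j, ((sig k (wd k L)).1 i j).natDegree ≤ L.length) ∧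
    ∃ c : ℤ, c ≠ 0 ∧ ∀ i j, ((sig k (wd k L)).1 i j).coeff L.length =
      c * (![1, (((L.head hL).1.val : ℕ) : ℤ)] i * ![-(((L.getLast hL).1.val : ℕ) : ℤ), 1] j) := by
  induction L with
  | nil => exact absurd rfl hL
  | cons p T ih =>
    have hof : sig k (FreeGroup.of p.1) = sgen (p.1.val : ℤ) := by
      unfold sig
      exact FreeGroup.lift_apply_of
    have hw : (sig k (wd k (p :: T))).1 = (sgen (p.1.val : ℤ) ^ p.2).1 * (sig k (wd k T)).1 := by
      have h1 : wd k (p :: T) = FreeGroup.of p.1 ^ p.2 * wd k T := by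
        unfold wd
        rw [List.map_cons, List.prod_cons]
      rw [h1, map_mul, map_zpow, hof, Matrix.SpecialLinearGroup.coe_mul]
    obtain ⟨hA1, hA2⟩ := top_one (p.1.val : ℤ) p.2
    cases T with
    | nil =>
      have h2 : (sig k (wd k [])).1 = 1 := by
        have h3 : wd k [] = 1 := rfl
        rw [h3, map_one]
        rfl
      rw [hw, h2, mul_one]
      exact ⟨hA1, p.2, h0 p (List.mem_cons_self), hA2⟩
    | cons q T' =>
      have hT : q :: T' ≠ [] := List.cons_ne_nil _ _
      rw [List.isChain_cons_cons] at hc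
      obtain ⟨hD1, c, hc0, hD2⟩ := ih hT (fun r hr => h0 r (List.mem_cons_of_mem _ hr)) hc.2
      obtain ⟨hM1, hM2⟩ := top_mul _ _ 1 (q :: T').length hA1 hD1
      have hlen : (p :: q :: T').length = 1 + (q :: T').length := by
        rw [List.length_cons, add_comm]
      rw [hw, hlen]
      refine ⟨hM1, p.2 * c * ((q.1.val : ℤ) - (p.1.val : ℤ)), ?_, fun i j => ?_⟩
      · refine mul_ne_zero (mul_ne_zero (h0 p List.mem_cons_self) hc0) fun h => hc.1 ?_
        apply ZMod.val_injective k
        omega
      · rw [hM2, Fin.sum_univ_two, hA2, hA2, hD2, hD2, List.getLast_cons hT]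
        show p.2 * (![1, (p.1.val : ℤ)] i * (-(p.1.val : ℤ))) *
            (c * (1 * ![-((((q :: T').getLast hT).1.val : ℕ) : ℤ), 1] j)) +
          p.2 * (![1, (p.1.val : ℤ)] i * 1) *
            (c * ((q.1.val : ℤ) * ![-((((q :: T').getLast hT).1.val : ℕ) : ℤ), 1] j)) =
          p.2 * c * ((q.1.val : ℤ) - (p.1.val : ℤ)) *
            (![1, (p.1.val : ℤ)] i * ![-((((q :: T').getLast hT).1.val : ℕ) : ℤ), 1] j)
        ring
-- END top

-- BEGIN red
private theorem red_append (k : ℕ) (L L' : List (ZMod k × ℤ)) : wd k (L ++ L') = wd k L * wd k L' := by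
  rw [wd, wd, wd, List.map_append, List.prod_append]

private theorem red_cons (k : ℕ) (p : ZMod k × ℤ) (L : List (ZMod k × ℤ)) :
    wd k (p :: L) = FreeGroup.of p.1 ^ p.2 * wd k L := by
  rw [wd, wd, List.map_cons, List.prod_cons]

private theorem red_nil (k : ℕ) : wd k [] = 1 := rfl

private theorem red_ex (k : ℕ) (g : FreeGroup (ZMod k)) : ∃ L : List (ZMod k × ℤ), g = wd k L := by
  induction g using FreeGroup.induction_on with
  | C1 => exact ⟨[], rfl⟩
  | of i => exact ⟨[(i, 1)], by rw [red_cons, red_nil, zpow_one, mul_one]⟩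
  | inv_of i _ => exact ⟨[(i, -1)], by rw [red_cons, red_nil, zpow_neg_one, mul_one]⟩
  | mul x y hx hy =>
    obtain ⟨L, rfl⟩ := hx
    obtain ⟨L', rfl⟩ := hy
    exact ⟨L ++ L', (red_append k L L').symm⟩

/-- ROW red. Every element is conjugate to a power of a basis element or to the element of a list
of at least two syllables, without zero exponents, without equal neighbours, the first and the
last one being different. Take a list of least length such that `g` is conjugate to its element;
a zero exponent could be left out, equal neighbours could be merged, and equal first and last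
letters could be merged after a rotation. -/
theorem exists_red (k : ℕ) [NeZero k] (g : FreeGroup (ZMod k)) :
    (∃ (w : FreeGroup (ZMod k)) (i : ZMod k) (m : ℤ), g = w * FreeGroup.of i ^ m * w⁻¹) ∨
    ∃ (w : FreeGroup (ZMod k)) (L : List (ZMod k × ℤ)) (hL : L ≠ []), g = w * wd k L * w⁻¹ ∧
      2 ≤ L.length ∧ (∀ p ∈ L, p.2 ≠ 0) ∧ L.IsChain (fun p q => p.1 ≠ q.1) ∧
      (L.head hL).1 ≠ (L.getLast hL).1 := by
  classical
  have hex : ∃ l : ℕ, ∃ (w : FreeGroup (ZMod k)) (L : List (ZMod k × ℤ)),
      L.length = l ∧ g = w * wd k L * w⁻¹ := by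
    obtain ⟨L, hL⟩ := red_ex k g
    exact ⟨L.length, 1, L, rfl, by rw [one_mul, inv_one, mul_one, hL]⟩
  obtain ⟨w, L, hlen, hg⟩ := Nat.find_spec hex
  have hmin : ∀ (w' : FreeGroup (ZMod k)) (L' : List (ZMod k × ℤ)), g = w' * wd k L' * w'⁻¹ →
      L.length ≤ L'.length := by
    intro w' L' h
    rw [hlen]
    exact Nat.find_min' hex ⟨w', L', rfl, h⟩
  rcases L with _ | ⟨p, _ | ⟨q, L⟩⟩
  · left
    exact ⟨w, 0, 0, by rw [hg, red_nil, zpow_zero]⟩
  · left
    exact ⟨w, p.1, p.2, by rw [hg, red_cons, red_nil, mul_one]⟩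
  · right
    refine ⟨w, p :: q :: L, List.cons_ne_nil _ _, hg, by simp, fun r hr h0 => ?_, ?_, ?_⟩
    · obtain ⟨L1, L2, h12⟩ := List.append_of_mem hr
      have h1 := hmin w (L1 ++ L2) (by
        rw [hg, h12, red_append, red_append, red_cons, h0, zpow_zero, one_mul])
      rw [h12, List.length_append, List.length_append, List.length_cons] at h1
      omega
    · rw [List.isChain_iff_forall_rel_of_append_cons_cons]
      intro a b L1 L2 h12 hab
      have h1 := hmin w (L1 ++ (a.1, a.2 + b.2) :: L2) (by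
        rw [hg, h12, red_append, red_append, red_cons, red_cons, red_cons, zpow_add, ← hab]
        group)
      rw [h12, List.length_append, List.length_append, List.length_cons, List.length_cons,
        List.length_cons] at h1
      omega
    · intro h
      rw [List.head_cons] at h
      have h2 : q :: L = (q :: L).dropLast ++ [(q :: L).getLast (List.cons_ne_nil _ _)] :=
        (List.dropLast_append_getLast (List.cons_ne_nil _ _)).symm
      rw [List.getLast_cons (List.cons_ne_nil _ _)] at h
      set r := (q :: L).getLast (List.cons_ne_nil _ _) with hr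
      set L' := (q :: L).dropLast with hL'
      have h1 := hmin (w * FreeGroup.of p.1 ^ p.2) (L' ++ [(p.1, r.2 + p.2)]) (by
        rw [hg, h2, red_cons, red_append, red_append, red_cons, red_cons, red_nil, zpow_add, ← h]
        group)
      have h3 : (q :: L).length = L'.length + 1 := by
        rw [h2, List.length_append, List.length_singleton]
      rw [List.length_append, List.length_singleton, List.length_cons, h3] at h1
      omega
-- END red

/-- The dichotomy. -/
theorem free_dich (k : ℕ) [NeZero k] (g : FreeGroup (ZMod k)) :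
    (∃ (w : FreeGroup (ZMod k)) (i : ZMod k) (m : ℤ), g = w * FreeGroup.of i ^ m * w⁻¹) ∨ 1 ≤ (tau k g).natDegree := by
  rcases exists_red k g with h | ⟨w, L, hL, rfl, h2, h0, hc, hne⟩
  · exact Or.inl h
  right
  obtain ⟨-, c, hc0, hcoef⟩ := top_list k L hL h0 hc
  have h1 : tau k (w * wd k L * w⁻¹) = Matrix.trace (sig k (wd k L)).1 := by
    unfold tau
    rw [map_mul, map_mul, map_inv]
    rw [Matrix.SpecialLinearGroup.coe_mul, Matrix.trace_mul_comm, ← Matrix.SpecialLinearGroup.coe_mul]
    congr 2
    group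
  have h3 : (tau k (w * wd k L * w⁻¹)).coeff L.length ≠ 0 := by
    rw [h1, Matrix.trace_fin_two, coeff_add, hcoef, hcoef]
    simp only [Matrix.cons_val_zero, Matrix.cons_val_one]
    have h4 : ((L.head hL).1.val : ℤ) - ((L.getLast hL).1.val : ℤ) ≠ 0 := by
      intro h
      apply hne
      apply ZMod.val_injective k
      omega
    intro h
    have h5 : c * (((L.head hL).1.val : ℤ) - ((L.getLast hL).1.val : ℤ)) = 0 := by linarith
    rcases mul_eq_zero.1 h5 with h6 | h6
    · exact hc0 h6
    · exact h4 h6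
  have := le_natDegree_of_ne_zero h3
  omega

end Pool.Agent.EvA
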