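import Mathlib

/-!
Traces of `U ^ n * V` in `SL_2 (ℤ[X])`, and generic elements.
-/

set_option autoImplicit false

namespace Pool.Agent.EvA

open Polynomial

-- BEGIN rec
/-- ROW rec. Cayley-Hamilton in size two. -/
theorem tr_rec (U V : Matrix.SpecialLinearGroup (Fin 2) ℤ[X]) (n : ℕ) :
    Matrix.trace (U ^ (n + 2) * V).1 =
      Matrix.trace U.1 * Matrix.trace (U ^ (n + 1) * V).1 - Matrix.trace (U ^ n * V).1 := by
  have h1 : U ^ (n + 2) * V = U * (U * (U ^ n * V)) := by
    rw [pow_succ', pow_succ', mul_assoc, mul_assoc]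
  have h2 : U ^ (n + 1) * V = U * (U ^ n * V) := by
    rw [pow_succ', mul_assoc]
  rw [h1, h2]
  generalize U ^ n * V = W
  have hd : U.1 0 0 * U.1 1 1 - U.1 0 1 * U.1 1 0 = 1 := by
    rw [← Matrix.det_fin_two]
    exact U.2
  have e1 : (U * (U * W)).1 = U.1 * (U.1 * W.1) := rfl
  have e2 : (U * W).1 = U.1 * W.1 := rfl
  rw [e1, e2]
  simp only [Matrix.trace_fin_two, Matrix.mul_apply, Fin.sum_univ_two]
  linear_combination (-(W.1 0 0) - W.1 1 1) * hd
-- END rec

-- BEGIN tf1
private theorem tf1_aux (t : ℤ[X]) (T : ℕ → ℤ[X]) (hT : ∀ n, T (n + 2) = t * T (n + 1) - T n)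
    (ht : 1 ≤ t.natDegree) (k : ℕ) (h0 : T (k + 1) ≠ 0)
    (h1 : (T k).natDegree ≤ (T (k + 1)).natDegree) (j : ℕ) :
    T (k + 1 + j) ≠ 0 ∧ (T (k + j)).natDegree ≤ (T (k + 1 + j)).natDegree ∧
      (1 ≤ j → 1 ≤ (T (k + 1 + j)).natDegree) := by
  induction j with
  | zero => exact ⟨h0, h1, fun h => absurd h (by norm_num)⟩
  | succ j ih =>
    obtain ⟨a, b, _⟩ := ih
    have ht0 : t ≠ 0 := by
      rintro rfl
      rw [natDegree_zero] at ht
      exact absurd ht (by norm_num)
    have e : T (k + 1 + (j + 1)) = t * T (k + 1 + j) - T (k + j) := by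
      have h2 := hT (k + j)
      have e1 : k + 1 + (j + 1) = k + j + 2 := by ring
      have e2 : k + 1 + j = k + j + 1 := by ring
      rw [e1, e2, h2]
    have m : (t * T (k + 1 + j)).natDegree = t.natDegree + (T (k + 1 + j)).natDegree :=
      natDegree_mul ht0 a
    have d : (T (k + 1 + (j + 1))).natDegree = t.natDegree + (T (k + 1 + j)).natDegree := by
      rw [e, natDegree_sub_eq_left_of_natDegree_lt (by omega), m]
    refine ⟨?_, ?_, ?_⟩
    · intro hz
      rw [hz, natDegree_zero] at d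
      omega
    · have e3 : k + (j + 1) = k + 1 + j := by ring
      rw [e3, d]
      omega
    · intro _
      rw [d]
      omega

/-- ROW tf1. Once `deg T_(n+1) ≥ deg T_n` and `T_(n+1) ≠ 0` the degrees grow strictly; if `T_n = 2`
this happens at `n` or (when `T_(n+1) = 0`, so `T_(n+2) = -2`) at `n + 1`. So the set is contained in
`{0, ..., n_0 + 2}`, `n_0` its least element. -/
theorem tr_fin1 (U V : Matrix.SpecialLinearGroup (Fin 2) ℤ[X])
    (h : 1 ≤ (Matrix.trace U.1).natDegree) :
    {n : ℕ | Matrix.trace (U ^ n * V).1 = 2}.Finite := by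
  have hS : ∀ T : ℕ → ℤ[X], (∀ n, T (n + 2) = Matrix.trace U.1 * T (n + 1) - T n) →
      {n : ℕ | T n = 2}.Finite := by
    intro T hT
    have d2 : (2 : ℤ[X]).natDegree = 0 := natDegree_ofNat 2
    by_cases hne : ∃ n0, T n0 = 2
    · obtain ⟨n0, hn0⟩ := hne
      refine (Set.finite_Iic (n0 + 2)).subset ?_
      intro n hn
      have hn' : T n = 2 := hn
      by_contra hlt
      have hlt' : n0 + 2 < n := not_le.1 hlt
      by_cases h1 : T (n0 + 1) = 0
      · have e2 : T (n0 + 1 + 1) = -2 := by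
          have h3 := hT n0
          rw [h1, hn0] at h3
          rw [show n0 + 1 + 1 = n0 + 2 from rfl, h3]
          ring
        have h4 := (tf1_aux _ T hT h (n0 + 1) (by rw [e2]; norm_num)
          (by rw [h1, natDegree_zero]; exact Nat.zero_le _) (n - (n0 + 2))).2.2 (by omega)
        rw [show n0 + 1 + 1 + (n - (n0 + 2)) = n by omega, hn', d2] at h4
        omega
      · have h4 := (tf1_aux _ T hT h n0 h1 (by rw [hn0, d2]; exact Nat.zero_le _)
          (n - (n0 + 1))).2.2 (by omega)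
        rw [show n0 + 1 + (n - (n0 + 1)) = n by omega, hn', d2] at h4
        omega
    · have : {n : ℕ | T n = 2} = ∅ := by
        ext n
        simp only [Set.mem_ofPred_eq, Set.mem_empty_iff_false, iff_false]
        exact fun h5 => hne ⟨n, h5⟩
      rw [this]
      exact Set.finite_empty
  exact hS _ (fun n => tr_rec U V n)
-- END tf1

-- BEGIN tf2
/-- ROW tf2. `T_n = T_0 + n (T_1 - T_0)` by `tr_rec`, so two solutions give `T_0 = 2`. -/
theorem tr_fin2 (U V : Matrix.SpecialLinearGroup (Fin 2) ℤ[X])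
    (h : Matrix.trace U.1 = 2) (h' : Matrix.trace V.1 ≠ 2) :
    {n : ℕ | Matrix.trace (U ^ n * V).1 = 2}.Finite := by
  set T : ℕ → ℤ[X] := fun n => Matrix.trace (U ^ n * V).1 with hT
  have h0 : T 0 = Matrix.trace V.1 := by
    rw [hT]
    simp
  have hrec : ∀ n, T (n + 2) = 2 * T (n + 1) - T n := by
    intro n
    have := tr_rec U V n
    rw [h] at this
    exact this
  have hlin : ∀ n : ℕ, T n = T 0 + (n : ℤ[X]) * (T 1 - T 0) ∧
      T (n + 1) = T 0 + ((n : ℤ[X]) + 1) * (T 1 - T 0) := by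
    intro n
    induction n with
    | zero =>
      constructor
      · simp
      · simp
    | succ n ih =>
      obtain ⟨h1, h2⟩ := ih
      refine ⟨by rw [h2]; push_cast; ring, ?_⟩
      rw [hrec n, h1, h2]
      push_cast
      ring
  refine Set.Subsingleton.finite ?_
  intro a ha b hb
  have ha' : T a = 2 := ha
  have hb' : T b = 2 := hb
  rw [(hlin a).1] at ha'
  rw [(hlin b).1] at hb'
  by_contra hab
  have h3 : ((a : ℤ[X]) - (b : ℤ[X])) * (T 1 - T 0) = 0 := by linear_combination ha' - hb'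
  rcases mul_eq_zero.1 h3 with h4 | h4
  · apply hab
    have h5 : (a : ℤ[X]) = (b : ℤ[X]) := sub_eq_zero.1 h4
    exact_mod_cast h5
  · rw [h4, mul_zero, add_zero, h0] at ha'
    exact h' ha'
-- END tf2

-- BEGIN sim
/-- ROW sim. Generic elements: induction on `s` (`Finset.induction_on`); for `insert i s` take the
`x` for `s`, `y` with `C i y`, and `x ^ n * y` with `n` outside of a finite union of finite sets. -/
theorem sim {G : Type} [Group G] (H : Subgroup G) {ι : Type} (s : Finset ι) (C : ι → G → Prop)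
    (hP : ∀ i ∈ s, ∀ x ∈ H, ∀ y ∈ H, (C i x ∨ C i y) → {n : ℕ | ¬ C i (x ^ n * y)}.Finite)
    (ha : ∀ i ∈ s, ∃ y ∈ H, C i y) : ∃ x ∈ H, ∀ i ∈ s, C i x := by
  classical
  revert hP ha
  refine Finset.induction_on s ?_ ?_
  · intro _ _
    exact ⟨1, H.one_mem, fun i hi => absurd hi (Finset.notMem_empty i)⟩
  · intro i s _ ih hP ha
    obtain ⟨x, hx, hxs⟩ := ih (fun j hj => hP j (Finset.mem_insert_of_mem hj))
      (fun j hj => ha j (Finset.mem_insert_of_mem hj))
    obtain ⟨y, hy, hyi⟩ := ha i (Finset.mem_insert_self i s)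
    have hfin : (⋃ j ∈ insert i s, {n : ℕ | ¬ C j (x ^ n * y)}).Finite := by
      refine Set.Finite.biUnion (Finset.finite_toSet (insert i s)) fun j hj => ?_
      have hj' : j ∈ insert i s := hj
      refine hP j hj' x hx y hy ?_
      rcases Finset.mem_insert.1 hj' with h | h
      · right
        rw [h]
        exact hyi
      · left
        exact hxs j h
    obtain ⟨n, hn⟩ := hfin.exists_notMem
    refine ⟨x ^ n * y, H.mul_mem (H.pow_mem hx n) hy, fun j hj => ?_⟩
    by_contra hc
    exact hn (Set.mem_biUnion (Finset.mem_coe.2 hj) hc)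
-- END sim

end Pool.Agent.EvA
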