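import Pool.Agent.EvA.Ret
import Pool.Agent.EvA.Free
import Pool.Agent.EvA.Tr

/-!
Even dihedral Artin groups: the homomorphism to `F(ℤ/k) ⋊ ℤ`.
-/

set_option autoImplicit false

namespace Pool.Agent.EvA

open Pool.Agent.ArtSph Pool.Agent.FBuild Polynomial

/-- The cyclic shift of the basis. -/
noncomputable def shf (k : ℕ) : MulAut (FreeGroup (ZMod k)) :=
  FreeGroup.freeGroupCongr (Equiv.addRight (1 : ZMod k))

-- BEGIN shn
/-- ROW shn. -/
theorem shf_zpow (k : ℕ) (n : ℤ) (i : ZMod k) :
    (shf k ^ n) (FreeGroup.of i) = FreeGroup.of (i + n) := by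
  have h1 : ∀ i : ZMod k, shf k (FreeGroup.of i) = FreeGroup.of (i + 1) := by
    intro i
    unfold shf
    simp
  have h2 : ∀ i : ZMod k, (shf k)⁻¹ (FreeGroup.of i) = FreeGroup.of (i - 1) := by
    intro i
    have h3 := h1 (i - 1)
    rw [sub_add_cancel] at h3
    rw [← h3, ← MulAut.mul_apply, inv_mul_cancel, MulAut.one_apply]
  induction n using Int.induction_on generalizing i with
  | zero => simp
  | succ n ih =>
    rw [zpow_add_one, MulAut.mul_apply, h1, ih]
    congr 1
    push_cast
    ring
  | pred n ih =>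
    rw [zpow_sub_one, MulAut.mul_apply, h2, ih]
    congr 1
    push_cast
    ring
-- END shn

/-- The action of `ℤ`. -/
noncomputable def shh (k : ℕ) : Multiplicative ℤ →* MulAut (FreeGroup (ZMod k)) :=
  zpowersHom _ (shf k)

/-- `F(ℤ/k) ⋊ ℤ`. -/
abbrev GG (k : ℕ) : Type := FreeGroup (ZMod k) ⋊[shh k] Multiplicative ℤ

/-- The generator `c`. -/
noncomputable def cc (k : ℕ) : GG k := SemidirectProduct.inr (Multiplicative.ofAdd 1)

/-- The basis elements. -/
noncomputable def ff (k : ℕ) (i : ZMod k) : GG k := SemidirectProduct.inl (FreeGroup.of i)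

-- BEGIN ccj
/-- ROW ccj. `c ^ n * f_i * c ^ (-n) = f_(i+n)` (`SemidirectProduct.inl_aut`, `shf_zpow`). -/
theorem cc_conj (k : ℕ) (n : ℤ) (i : ZMod k) : cc k ^ n * ff k i * (cc k ^ n)⁻¹ = ff k (i + n) := by
  have h1 : cc k ^ n = SemidirectProduct.inr (Multiplicative.ofAdd n) := by
    unfold cc
    rw [← map_zpow, ← ofAdd_zsmul, smul_eq_mul, mul_one]
  have h2 : shh k (Multiplicative.ofAdd n) = shf k ^ n := by
    unfold shh
    simp
  unfold ff
  rw [h1, ← map_inv, ← SemidirectProduct.inl_aut, h2, shf_zpow]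
-- END ccj

variable {B : Type} {M : CoxeterMatrix B}

-- BEGIN alr
open Classical in
/-- ROW alr. The relation of the homomorphism: `(f g)^k = (g f)^k` for `f = f_0`, `g = f_0⁻¹ c`:
`f g = c`, `g f = f⁻¹ c f` and `c ^ k` commutes with `f_0` (`cc_conj` with `n = k`, `(k : ZMod k) = 0`). -/
theorem al_rel (k : ℕ) : (ff k 0 * ((ff k 0)⁻¹ * cc k)) ^ k = ((ff k 0)⁻¹ * cc k * ff k 0) ^ k := by
  rw [mul_inv_cancel_left]
  have h1 := cc_conj k (k : ℤ) 0
  rw [zpow_natCast, Int.cast_natCast, ZMod.natCast_self, add_zero] at h1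
  have h2 : cc k ^ k * ff k 0 = ff k 0 * cc k ^ k := mul_inv_eq_iff_eq_mul.1 h1
  have h3 : ∀ n : ℕ, ((ff k 0)⁻¹ * cc k * ff k 0) ^ n = (ff k 0)⁻¹ * cc k ^ n * ff k 0 := by
    intro n
    induction n with
    | zero => simp
    | succ n ih => rw [pow_succ, ih, pow_succ]; group
  rw [h3, mul_assoc, h2, inv_mul_cancel_left]
-- END alr

open Classical in
/-- The homomorphism of an even Artin group: `s` to `f_0`, `t` to `f_0⁻¹ c`, the others to `1`. -/
noncomputable def al (hM : EvM M) (s t : B) (hst : s ≠ t) (k : ℕ) (hk : M s t = 2 * k) :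
    Art M →* GG k :=
  artLift (fun i => if i = s then ff k 0 else if i = t then (ff k 0)⁻¹ * cc k else 1)
    (even_rel hM _ (by
      intro i j l hij hl hl0
      by_cases h1 : i = s
      · by_cases h2 : j = t
        · have h3 : l = k := by rw [h1, h2, hk] at hl; omega
          rw [if_pos h1, if_neg (by rw [h2]; exact hst.symm), if_pos h2, h3]
          exact al_rel k
        · have h3 : j ≠ s := by rw [← h1]; exact hij.symm
          rw [if_pos h1, if_neg h3, if_neg h2, mul_one, one_mul]
      · by_cases h2 : j = s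
        · by_cases h3 : i = t
          · have h4 : l = k := by rw [h3, h2, M.symmetric, hk] at hl; omega
            rw [if_neg h1, if_pos h3, if_pos h2, h4]
            exact (al_rel k).symm
          · rw [if_neg h1, if_neg h3, mul_one, one_mul]
        · by_cases h3 : i = t
          · have h4 : j ≠ t := by rw [← h3]; exact hij.symm
            rw [if_neg h1, if_pos h3, if_neg h2, if_neg h4, mul_one, one_mul]
          · rw [if_neg h1, if_neg h3, mul_one, one_mul]))

theorem al_s (hM : EvM M) (s t : B) (hst : s ≠ t) (k : ℕ) (hk : M s t = 2 * k) :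
    al hM s t hst k hk (ag M s) = ff k 0 := by
  unfold al
  rw [artLift_ag, if_pos rfl]

theorem al_t (hM : EvM M) (s t : B) (hst : s ≠ t) (k : ℕ) (hk : M s t = 2 * k) :
    al hM s t hst k hk (ag M t) = (ff k 0)⁻¹ * cc k := by
  unfold al
  rw [artLift_ag, if_neg hst.symm, if_pos rfl]

theorem al_o (hM : EvM M) (s t : B) (hst : s ≠ t) (k : ℕ) (hk : M s t = 2 * k) {i : B}
    (h1 : i ≠ s) (h2 : i ≠ t) : al hM s t hst k hk (ag M i) = 1 := by
  unfold al
  rw [artLift_ag, if_neg h1, if_neg h2]

-- BEGIN alg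
/-- ROW alg. The `ℤ` coordinate is the degree in `t`: `art_induction`, or equality of the two
homomorphisms `SemidirectProduct.rightHom.comp al` and `dg` on the generators (`PresentedGroup.ext`). -/
theorem al_right (hM : EvM M) (s t : B) (hst : s ≠ t) (k : ℕ) (hk : M s t = 2 * k) (h : Art M) :
    (al hM s t hst k hk h).right = dg hM t h := by
  induction h using art_induction with
  | h1 => simp
  | hg i =>
    by_cases h1 : i = s
    · subst h1
      rw [al_s, dg_ne hM hst]
      simp [ff]
    · by_cases h2 : i = t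
      · subst h2
        rw [al_t, dg_self]
        simp [ff, cc]
      · rw [al_o hM s t hst k hk h1 h2, dg_ne hM h2]
        rfl
  | hm a b ha hb => rw [map_mul, map_mul, SemidirectProduct.mul_right, ha, hb]
  | hi a ha => rw [map_inv, map_inv, SemidirectProduct.inv_right, ha]
-- END alg

-- BEGIN bec
/-- ROW bec. `(s t) ^ k` commutes with `s` (from `(s t)^k = (t s)^k`, `art_braid` with `altM_even`). -/
theorem ck_comm (s t : B) (k : ℕ) (hk : M s t = 2 * k) (hk0 : k ≠ 0) :
    (ag M s * ag M t) ^ k * ag M s = ag M s * (ag M s * ag M t) ^ k := by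
  have h1 := art_braid M s t (by omega)
  rw [hk, altM_even, altM_even] at h1
  rw [mul_pow_mul, ← h1]
-- END bec

/-- The images of the basis. -/
noncomputable def bf (M : CoxeterMatrix B) (s t : B) (k : ℕ) (i : ZMod k) : Art M :=
  (ag M s * ag M t) ^ i.val * ag M s * ((ag M s * ag M t) ^ i.val)⁻¹

-- BEGIN bsh
/-- ROW bsh. Conjugation by `C = s t` shifts the images of the basis: if `(i + 1).val = i.val + 1`
immediate; otherwise `i.val + 1 = k` and `(i + 1).val = 0`, and `C ^ k` commutes with `s`. -/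
theorem bf_shift (s t : B) (k : ℕ) [NeZero k] (hk : M s t = 2 * k) (i : ZMod k) :
    ag M s * ag M t * bf M s t k i * (ag M s * ag M t)⁻¹ = bf M s t k (i + 1) := by
  have hk0 : k ≠ 0 := NeZero.ne k
  have h1 : (i + 1).val = (i.val + 1) % k := by
    rw [ZMod.val_add, ZMod.val_one_eq_one_mod, Nat.add_mod_mod]
  have hlt : i.val < k := ZMod.val_lt i
  have h2 : ag M s * ag M t * bf M s t k i * (ag M s * ag M t)⁻¹ =
      (ag M s * ag M t) ^ (i.val + 1) * ag M s * ((ag M s * ag M t) ^ (i.val + 1))⁻¹ := by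
    unfold bf
    generalize ag M s * ag M t = c
    rw [pow_succ', mul_inv_rev]
    simp only [mul_assoc]
  rw [h2]
  unfold bf
  rw [h1]
  rcases Nat.lt_or_ge (i.val + 1) k with h3 | h3
  · rw [Nat.mod_eq_of_lt h3]
  · have h4 : i.val + 1 = k := by omega
    rw [h4, Nat.mod_self, pow_zero, ck_comm s t k hk hk0, mul_assoc, mul_inv_cancel, one_mul,
      inv_one]
-- END bsh

-- BEGIN bee
/-- ROW bee. The inverse homomorphism `GG k → A`: `SemidirectProduct.lift` of
`FreeGroup.lift (bf M s t k)` and `zpowersHom (s t)`; the compatibility is checked for the generator of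
`ℤ` and the basis (`bf_shift`), then for all integers (both sides are homomorphisms of `Multiplicative ℤ`
to the automorphisms: or show `f (shf k ^ n g) = C ^ n f(g) C ^ (-n)` by `Int.induction_on`). -/
theorem exists_be (s t : B) (k : ℕ) [NeZero k] (hk : M s t = 2 * k) :
    ∃ be : GG k →* Art M, (∀ i, be (ff k i) = bf M s t k i) ∧ be (cc k) = ag M s * ag M t := by
  have key : ∀ (n : ℤ) (i : ZMod k), bf M s t k (i + n) =
      (ag M s * ag M t) ^ n * bf M s t k i * ((ag M s * ag M t) ^ n)⁻¹ := by
    intro n i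
    induction n using Int.induction_on with
    | zero => simp
    | succ n ih =>
      have h1 : i + (((n : ℤ) + 1 : ℤ) : ZMod k) = (i + ((n : ℤ) : ZMod k)) + 1 := by
        push_cast; ring
      rw [h1, ← bf_shift s t k hk, ih]
      generalize ag M s * ag M t = c
      group
    | pred n ih =>
      have h1 : i + ((-(n : ℤ) : ℤ) : ZMod k) = (i + ((-(n : ℤ) - 1 : ℤ) : ZMod k)) + 1 := by
        push_cast; ring
      rw [h1, ← bf_shift s t k hk] at ih
      have h2 : bf M s t k (i + ((-(n : ℤ) - 1 : ℤ) : ZMod k)) =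
          (ag M s * ag M t)⁻¹ * (ag M s * ag M t * bf M s t k (i + ((-(n : ℤ) - 1 : ℤ) : ZMod k)) *
            (ag M s * ag M t)⁻¹) * (ag M s * ag M t) := by
        group
      rw [h2, ih]
      generalize ag M s * ag M t = c
      group
  refine ⟨SemidirectProduct.lift (FreeGroup.lift (bf M s t k)) (zpowersHom _ (ag M s * ag M t)) ?_,
    ?_, ?_⟩
  · intro g
    apply FreeGroup.ext_hom
    intro i
    have h1 : (shh k g) (FreeGroup.of i) = FreeGroup.of (i + (Multiplicative.toAdd g : ℤ)) := by
      unfold shh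
      rw [zpowersHom_apply, shf_zpow]
    simp only [MonoidHom.comp_apply, MulEquiv.coe_toMonoidHom, h1, FreeGroup.lift_apply_of,
      MulAut.conj_apply, zpowersHom_apply, key]
  · intro i
    unfold ff
    rw [SemidirectProduct.lift_inl, FreeGroup.lift_apply_of]
  · unfold cc
    rw [SemidirectProduct.lift_inr, zpowersHom_apply]
    simp
-- END bee

-- BEGIN bal
/-- ROW bal. `be (al h) = rt {s, t} h`: the same on the generators. -/
theorem be_al (hM : EvM M) (s t : B) (hst : s ≠ t) (k : ℕ) (hk : M s t = 2 * k) (be : GG k →* Art M)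
    (h1 : ∀ i, be (ff k i) = bf M s t k i) (h2 : be (cc k) = ag M s * ag M t) [NeZero k] (h : Art M) :
    be (al hM s t hst k hk h) = rt hM {s, t} h := by
  have h3 : be (ff k 0) = ag M s := by
    rw [h1]
    unfold bf
    rw [ZMod.val_zero]
    simp
  induction h using art_induction with
  | h1 => simp
  | hg i =>
    by_cases h4 : i = s
    · subst h4
      rw [al_s, rt_in hM (by simp), h3]
    · by_cases h5 : i = t
      · subst h5
        rw [al_t, rt_in hM (by simp), map_mul, map_inv, h3, h2]
        group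
      · rw [al_o hM s t hst k hk h4 h5, rt_out hM (by simp [h4, h5]), map_one]
  | hm a b ha hb => rw [map_mul, map_mul, map_mul, ha, hb]
  | hi a ha => rw [map_inv, map_inv, map_inv, ha]
-- END bal

-- BEGIN bem
/-- ROW bem. The image of `be` on the free part is in `A_{s,t}`: `FreeGroup.induction_on`. -/
theorem be_mem (s t : B) (k : ℕ) (be : GG k →* Art M)
    (h1 : ∀ i, be (ff k i) = bf M s t k i) (g : FreeGroup (ZMod k)) :
    be (SemidirectProduct.inl g) ∈ Subgroup.closure (ag M '' {s, t}) := by
  have hs : ag M s ∈ Subgroup.closure (ag M '' {s, t}) := Subgroup.subset_closure ⟨s, Or.inl rfl, rfl⟩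
  have ht : ag M t ∈ Subgroup.closure (ag M '' {s, t}) := Subgroup.subset_closure ⟨t, Or.inr rfl, rfl⟩
  have hi : ∀ i, be (SemidirectProduct.inl (FreeGroup.of i)) ∈ Subgroup.closure (ag M '' {s, t}) := by
    intro i
    have h2 : be (SemidirectProduct.inl (FreeGroup.of i)) = bf M s t k i := h1 i
    rw [h2]
    unfold bf
    have h3 := Subgroup.pow_mem _ (Subgroup.mul_mem _ hs ht) i.val
    exact Subgroup.mul_mem _ (Subgroup.mul_mem _ h3 hs) (Subgroup.inv_mem _ h3)
  induction g using FreeGroup.induction_on with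
  | C1 =>
    rw [map_one, map_one]
    exact Subgroup.one_mem _
  | of i => exact hi i
  | inv_of i h =>
    rw [map_inv, map_inv]
    exact Subgroup.inv_mem _ h
  | mul x y hx hy =>
    rw [map_mul, map_mul]
    exact Subgroup.mul_mem _ hx hy
-- END bem

/-- If the degree in `t` is zero and the trace is `2` then the retraction to `A_{s,t}` is conjugate
to a power of `s`. -/
theorem tau_two (hM : EvM M) (s t : B) (hst : s ≠ t) (k : ℕ) [NeZero k] (hk : M s t = 2 * k)
    (h : Art M) (hd : dg hM t h = 1) (h2 : tau k (al hM s t hst k hk h).left = 2) :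
    ∃ a ∈ Subgroup.closure (ag M '' {s, t}), ∃ m : ℤ, rt hM {s, t} h = a * ag M s ^ m * a⁻¹ := by
  obtain ⟨be, h3, h4⟩ := exists_be s t k hk
  have h5 := be_al hM s t hst k hk be h3 h4 h
  have h6 : al hM s t hst k hk h = SemidirectProduct.inl (al hM s t hst k hk h).left := by
    apply SemidirectProduct.ext
    · simp
    · rw [al_right, hd]; simp
  rcases free_dich k (al hM s t hst k hk h).left with ⟨w, i, m, hw⟩ | h7
  · refine ⟨be (SemidirectProduct.inl w) * (ag M s * ag M t) ^ i.val, ?_, m, ?_⟩
    · apply Subgroup.mul_mem _ (be_mem s t k be h3 w)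
      apply Subgroup.pow_mem
      exact Subgroup.mul_mem _ (Subgroup.subset_closure ⟨s, by simp, rfl⟩)
        (Subgroup.subset_closure ⟨t, by simp, rfl⟩)
    · rw [← h5, h6, hw]
      simp only [map_mul, map_zpow, map_inv]
      have h8 : be (SemidirectProduct.inl (FreeGroup.of i)) = bf M s t k i := h3 i
      rw [h8]
      unfold bf
      rw [conj_zpow]
      group
  · rw [h2] at h7
    simp at h7

-- BEGIN cst
/-- ROW cst. The genericity condition for `x`, `y` of degree `0` in `t`: the left coordinate is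
multiplicative on elements with trivial right coordinate, so with `U = sig (al x).left`,
`V = sig (al y).left` the trace at `x ^ n * y` is `tr (U ^ n * V)`; `tr_fin1` if `1 ≤ natDegree tr U`;
otherwise `tr U = 2` by `free_dich` and `tau_conj`, so `tau y ≠ 2` and `tr_fin2`. -/
theorem tau_fin (hM : EvM M) (s t : B) (hst : s ≠ t) (k : ℕ) [NeZero k] (hk : M s t = 2 * k)
    (x y : Art M) (hx : dg hM t x = 1) (hy : dg hM t y = 1)
    (h : tau k (al hM s t hst k hk x).left ≠ 2 ∨ tau k (al hM s t hst k hk y).left ≠ 2) :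
    {n : ℕ | tau k (al hM s t hst k hk (x ^ n * y)).left = 2}.Finite := by
  have hxr : (al hM s t hst k hk x).right = 1 := by rw [al_right, hx]
  have hpr : ∀ n : ℕ, (al hM s t hst k hk (x ^ n)).right = 1 := by
    intro n
    rw [al_right, map_pow, hx, one_pow]
  have hpl : ∀ n : ℕ, (al hM s t hst k hk (x ^ n)).left = (al hM s t hst k hk x).left ^ n := by
    intro n
    induction n with
    | zero => rw [pow_zero, pow_zero, map_one, SemidirectProduct.one_left]
    | succ n ih =>
      rw [pow_succ, map_mul, SemidirectProduct.mul_left, hpr n, map_one, MulAut.one_apply, ih,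
        pow_succ]
  have hl : ∀ n : ℕ, (al hM s t hst k hk (x ^ n * y)).left =
      (al hM s t hst k hk x).left ^ n * (al hM s t hst k hk y).left := by
    intro n
    rw [map_mul, SemidirectProduct.mul_left, hpr n, map_one, MulAut.one_apply, hpl n]
  have ht : ∀ n : ℕ, tau k (al hM s t hst k hk (x ^ n * y)).left =
      Matrix.trace (sig k (al hM s t hst k hk x).left ^ n *
        sig k (al hM s t hst k hk y).left).1 := by
    intro n
    rw [hl n]
    unfold tau
    rw [map_mul, map_pow]
  have hset : {n : ℕ | tau k (al hM s t hst k hk (x ^ n * y)).left = 2} =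
      {n : ℕ | Matrix.trace (sig k (al hM s t hst k hk x).left ^ n *
        sig k (al hM s t hst k hk y).left).1 = 2} := by
    ext n
    rw [Set.mem_ofPred_eq, Set.mem_ofPred_eq, ht n]
  rw [hset]
  rcases free_dich k (al hM s t hst k hk x).left with ⟨w, i, m, hw⟩ | h7
  · have h2 : tau k (al hM s t hst k hk x).left = 2 := by
      rw [hw]
      exact tau_conj k w i m
    have h3 : tau k (al hM s t hst k hk y).left ≠ 2 := by
      rcases h with h | h
      · exact absurd h2 h
      · exact h
    exact tr_fin2 _ _ h2 h3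
  · exact tr_fin1 _ _ h7
-- END cst

-- BEGIN cjt
private theorem cjt_pow (hM : EvM M) (s t : B) (hst : s ≠ t) (k : ℕ) (hk : M s t = 2 * k)
    {T : Set B} (ht : t ∉ T) (y : Art M) (hy : y ∈ Subgroup.closure (ag M '' T)) :
    ∃ m : ℤ, al hM s t hst k hk y = ff k 0 ^ m := by
  induction hy using Subgroup.closure_induction with
  | mem x hx =>
    obtain ⟨i, hi, rfl⟩ := hx
    by_cases h1 : i = s
    · subst h1
      exact ⟨1, by rw [al_s, zpow_one]⟩
    · refine ⟨0, ?_⟩
      rw [al_o hM s t hst k hk h1 (by rintro rfl; exact ht hi), zpow_zero]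
  | one => exact ⟨0, by rw [map_one, zpow_zero]⟩
  | mul x y _ _ hx hy =>
    obtain ⟨m, hm⟩ := hx
    obtain ⟨n, hn⟩ := hy
    exact ⟨m + n, by rw [map_mul, hm, hn, zpow_add]⟩
  | inv x _ hx =>
    obtain ⟨m, hm⟩ := hx
    exact ⟨-m, by rw [map_inv, hm, zpow_neg]⟩

private theorem cjt_mk (k : ℕ) (g : GG k) :
    ∃ j : ℤ, g = SemidirectProduct.inl g.left * cc k ^ j := by
  refine ⟨Multiplicative.toAdd g.right, ?_⟩
  have h1 : cc k ^ (Multiplicative.toAdd g.right) = SemidirectProduct.inr g.right := by
    unfold cc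
    rw [← map_zpow]
    congr 1
    rw [← ofAdd_zsmul]
    simp
  rw [h1]
  exact (SemidirectProduct.inl_left_mul_inr_right g).symm

/-- ROW cjt. If `t ∉ T` the conjugates of the elements of `A_T` have trace `2`: `al` maps `A_T` to the
powers of `f_0` (closure induction), and with `al g = inl w * c ^ j` (`SemidirectProduct.mk_eq_inl_mul_inr`)
the conjugate of `f_0 ^ m` is `inl (w * of j ^ m * w⁻¹)` (`cc_conj`); then `tau_conj`. -/
theorem tau_conj_mem (hM : EvM M) (s t : B) (hst : s ≠ t) (k : ℕ) (hk : M s t = 2 * k)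
    {T : Set B} (ht : t ∉ T) (y g : Art M) (hy : y ∈ Subgroup.closure (ag M '' T)) :
    tau k (al hM s t hst k hk (g * y * g⁻¹)).left = 2 := by
  obtain ⟨m, hm⟩ := cjt_pow hM s t hst k hk ht y hy
  obtain ⟨j, hj⟩ := cjt_mk k (al hM s t hst k hk g)
  generalize (al hM s t hst k hk g).left = w at hj
  have h1 : al hM s t hst k hk (g * y * g⁻¹) =
      SemidirectProduct.inl (w * FreeGroup.of ((0 : ZMod k) + j) ^ m * w⁻¹) := by
    rw [map_mul, map_mul, map_inv, hm, hj]
    have h2 : cc k ^ j * ff k 0 ^ m * (cc k ^ j)⁻¹ = ff k ((0 : ZMod k) + j) ^ m := by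
      rw [← cc_conj k j 0, conj_zpow]
    have h3 : (SemidirectProduct.inl w * cc k ^ j * ff k 0 ^ m * (SemidirectProduct.inl w * cc k ^ j)⁻¹ : GG k)
        = SemidirectProduct.inl w * (cc k ^ j * ff k 0 ^ m * (cc k ^ j)⁻¹) * (SemidirectProduct.inl w)⁻¹ := by
      group
    rw [h3, h2]
    unfold ff
    rw [map_mul, map_mul, map_inv, map_zpow]
  rw [h1, SemidirectProduct.left_inl]
  exact tau_conj k w _ m
-- END cjt

end Pool.Agent.EvA
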