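import Pool.Agent.EvA.Ret

/-!
No vertex of a finite even Coxeter group has two labels at least `4`.
-/

set_option autoImplicit false

namespace Pool.Agent.EvA

open Pool.Agent.ArtSph Pool.Agent.FBuild CoxeterSystem

variable {B : Type} {M : CoxeterMatrix B}

-- BEGIN lfn
/-- ROW lfn. The order of `simple s * simple t` is `M s t` (`orderOf_simple_mul`), an element of a finite
group has finite order. -/
theorem lab_fin [Fintype B] {X : Set B} (hX : Sph M X) {s t : B} (hs : s ∈ X) (ht : t ∈ X) :
    M s t ≠ 0 := by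
  set G : Subgroup M.Group := Subgroup.closure (M.simple '' X) with hG
  have hfin : Finite G := hX.to_subtype
  have hm : M.simple s * M.simple t ∈ G :=
    G.mul_mem (Subgroup.subset_closure ⟨s, hs, rfl⟩) (Subgroup.subset_closure ⟨t, ht, rfl⟩)
  have ho : IsOfFinOrder (⟨M.simple s * M.simple t, hm⟩ : G) := isOfFinOrder_of_finite _
  have ho2 : IsOfFinOrder (M.simple s * M.simple t) := MonoidHom.isOfFinOrder G.subtype ho
  have h1 : orderOf (M.simple s * M.simple t) = M s t :=
    orderOf_simple_mul M.toCoxeterSystem s t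
  rw [← h1]
  exact (orderOf_pos_iff.2 ho2).ne'
-- END lfn

-- BEGIN kmq
/-- ROW kmq. `M s t` even, not `2`: it is `0` (then `2`) or at least `4`: `2 cos (π / m) ≥ 2 cos (π / 4)`. -/
theorem kM_sqrt {s t : B} (hst : s ≠ t) (he : Even (M s t)) (h2 : M s t ≠ 2) :
    Real.sqrt 2 ≤ kM M s t := by
  rw [kM]
  split_ifs with h0
  · have h3 : Real.sqrt 2 ≤ Real.sqrt 4 := Real.sqrt_le_sqrt (by norm_num)
    have h4 : Real.sqrt 4 = 2 := by
      rw [show (4 : ℝ) = 2 ^ 2 by norm_num]
      exact Real.sqrt_sq (by norm_num)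
    rw [h4] at h3
    exact h3
  · have h3 := two_le s t hst h0
    have h4 : 4 ≤ M s t := by
      obtain ⟨k, hk⟩ := he
      omega
    have h4' : (4 : ℝ) ≤ M s t := by exact_mod_cast h4
    have h5 : Real.cos (Real.pi / 4) ≤ Real.cos (Real.pi / M s t) := by
      apply Real.cos_le_cos_of_nonneg_of_le_pi
      · positivity
      · have := Real.pi_pos
        linarith
      · exact div_le_div_of_nonneg_left Real.pi_pos.le (by norm_num) h4'
    rw [Real.cos_pi_div_four] at h5
    linarith
-- END kmq

/-- The functional. -/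
noncomputable def fl (s t u : B) (v : B → ℝ) : ℝ := Real.sqrt 2 * v s + v t + v u

-- BEGIN flm
/-- ROW flm. Firing a positive vertex of `{s, t, u}` does not decrease `fl`: by `game_mul_apply`,
`game_simple`, `act_apply` the change is `v c * (√2 k_(cs) + k_(ct) + k_(cu))` with `k_(cc) = -2`; for
`c = s` it is `v s * (k_st + k_su - 2 √2)`, for `c = t` it is `v t * (√2 k_ts + k_tu - 2)`. -/
theorem fl_mono {s t u : B} (hst : s ≠ t) (hsu : s ≠ u) (htu : t ≠ u)
    (h1 : Real.sqrt 2 ≤ kM M s t) (h2 : Real.sqrt 2 ≤ kM M s u) (w : M.Group) (c : B)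
    (hc : c = s ∨ c = t ∨ c = u)
    (hp : 0 < game M.toCoxeterSystem w (fun _ => 1) c) :
    fl s t u (game M.toCoxeterSystem w (fun _ => 1)) ≤
      fl s t u (game M.toCoxeterSystem (M.toCoxeterSystem.simple c * w) (fun _ => 1)) := by
  have h3 : game M.toCoxeterSystem (M.toCoxeterSystem.simple c * w) (fun _ => 1) =
      act (kM M) c (game M.toCoxeterSystem w (fun _ => 1)) := by
    rw [map_mul, game_simple]
    rfl
  rw [h3]
  obtain ⟨v, hv⟩ : ∃ v, v = game M.toCoxeterSystem w (fun _ => (1 : ℝ)) := ⟨_, rfl⟩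
  rw [← hv] at hp ⊢
  unfold fl
  rw [act_apply, act_apply, act_apply]
  have hs2 : Real.sqrt 2 * Real.sqrt 2 = 2 := Real.mul_self_sqrt (by norm_num)
  have hs0 : 0 ≤ Real.sqrt 2 := Real.sqrt_nonneg 2
  have key : 0 ≤ v c * (Real.sqrt 2 * kM M c s + kM M c t + kM M c u) := by
    refine mul_nonneg hp.le ?_
    rcases hc with rfl | rfl | rfl
    · rw [kM_diag]
      linarith
    · rw [kM_diag, kM_symm c s]
      have h4 := kM_nonneg (M := M) c u htu
      have h5 := mul_le_mul_of_nonneg_left h1 hs0
      linarith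
    · rw [kM_diag, kM_symm c s, kM_symm c t]
      have h4 := kM_nonneg (M := M) t c htu
      have h5 := mul_le_mul_of_nonneg_left h2 hs0
      linarith
  nlinarith
-- END flm

-- BEGIN flp
/-- ROW flp. `fl` is positive on the orbit of the constant function `1` under `<s, t, u>`: strong
induction on the length; if `w ≠ 1` then `w` has a descent `c` in `{s, t, u}` (`red_uniq` with the
embedding of the three letters, `N = pullM M t3 ht`, `v = 1`, `one_asc`), and `fl_mono` for
`simple c * w` (`asc_simple_mul`, `asc_pos`). -/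
theorem fl_pos {s t u : B} (hst : s ≠ t) (hsu : s ≠ u) (htu : t ≠ u)
    (h1 : Real.sqrt 2 ≤ kM M s t) (h2 : Real.sqrt 2 ≤ kM M s u) (w : M.Group)
    (hw : w ∈ Wt M.toCoxeterSystem (fun c : ({s, t, u} : Set B) => c.1)) :
    0 < fl s t u (game M.toCoxeterSystem w (fun _ => 1)) := by
  induction hN : M.toCoxeterSystem.length w using Nat.strong_induction_on generalizing w with
  | _ n ih =>
  by_cases hw1 : w = 1
  · subst hw1
    rw [map_one]
    show 0 < Real.sqrt 2 * 1 + 1 + 1
    have := Real.sqrt_nonneg 2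
    linarith
  · have ht3 : Function.Injective (fun c : ({s, t, u} : Set B) => c.1) := Subtype.val_injective
    have hex : ∃ c : ({s, t, u} : Set B), ¬ Asc M.toCoxeterSystem w c.1 := by
      by_contra hcon
      push Not at hcon
      apply hw1
      apply red_uniq (cs := M.toCoxeterSystem) (t := fun c : ({s, t, u} : Set B) => c.1)
        (N := pullM M _ ht3) (pull_lab M _ ht3) hw (v := 1)
      · intro c
        exact one_asc _ _
      · intro c
        rw [mul_one]
        exact hcon c
    obtain ⟨c, hc⟩ := hex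
    have h3 := asc_simple_mul M.toCoxeterSystem hc
    have hlen : M.toCoxeterSystem.length (M.toCoxeterSystem.simple c.1 * w) < n := by
      unfold Asc at h3
      rw [M.toCoxeterSystem.simple_mul_simple_cancel_left] at h3
      omega
    have hmem : M.toCoxeterSystem.simple c.1 * w ∈
        Wt M.toCoxeterSystem (fun c : ({s, t, u} : Set B) => c.1) :=
      (Wt M.toCoxeterSystem _).mul_mem (simple_mem_Wt M.toCoxeterSystem _ c) hw
    have h4 := ih _ hlen _ hmem rfl
    have h5 := asc_pos M.toCoxeterSystem h3 (fun _ => 1) (fun _ => one_pos)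
    have hcc : c.1 = s ∨ c.1 = t ∨ c.1 = u := by
      rcases c with ⟨x, hx⟩
      exact hx
    have h6 := fl_mono hst hsu htu h1 h2 _ c.1 hcc h5
    rw [M.toCoxeterSystem.simple_mul_simple_cancel_left] at h6
    linarith
-- END flp

-- BEGIN nfk
/-- ROW nfk. The element of `<s, t, u>` (finite) of largest length has no ascent in `{s, t, u}`, so its
three values are negative (`not_asc_neg`), against `fl_pos`. -/
theorem no_fork {X : Set B} (hX : Sph M X) (hM : EvM M) {s t u : B} (hs : s ∈ X) (ht : t ∈ X)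
    (hu : u ∈ X) (hst : s ≠ t) (hsu : s ≠ u) (htu : t ≠ u) (h1 : M s t ≠ 2) : M s u = 2 := by
  by_contra h2
  have hk1 := kM_sqrt (M := M) hst (hM s t hst) h1
  have hk2 := kM_sqrt (M := M) hsu (hM s u hsu) h2
  set cs := M.toCoxeterSystem with hcs
  have hle : Wt cs (fun c : ({s, t, u} : Set B) => c.1) ≤ Subgroup.closure (M.simple '' X) := by
    unfold Wt
    rw [Subgroup.closure_le]
    rintro _ ⟨⟨c, hc⟩, rfl⟩
    refine Subgroup.subset_closure ⟨c, ?_, rfl⟩
    rcases hc with h | h | h
    · rw [h]; exact hs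
    · rw [h]; exact ht
    · rw [Set.mem_singleton_iff.1 h]; exact hu
  have hfin : ((Wt cs (fun c : ({s, t, u} : Set B) => c.1) : Subgroup M.Group) : Set M.Group).Finite :=
    Set.Finite.subset hX hle
  obtain ⟨w, hw, hmax⟩ := Set.exists_max_image _ (fun w => cs.length w) hfin ⟨1, one_mem _⟩
  have hneg : ∀ c, c ∈ ({s, t, u} : Set B) → game cs w (fun _ => 1) c < 0 := by
    intro c hc
    refine not_asc_neg cs ?_ _ (fun _ => one_pos)
    intro h
    have h3 := hmax (cs.simple c * w) (mul_mem (simple_mem_Wt cs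
      (fun c : ({s, t, u} : Set B) => c.1) ⟨c, hc⟩) hw)
    exact absurd h (not_lt.2 h3)
  have h4 := fl_pos hst hsu htu hk1 hk2 w hw
  have h5 := hneg s (by simp)
  have h6 := hneg t (by simp)
  have h7 := hneg u (by simp)
  unfold fl at h4
  have h8 : Real.sqrt 2 * game cs w (fun _ => 1) s ≤ 0 :=
    mul_nonpos_of_nonneg_of_nonpos (Real.sqrt_nonneg 2) h5.le
  linarith
-- END nfk

end Pool.Agent.EvA
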