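import Pool.Agent.EvA.Dih
import Pool.Agent.EvA.Fork

/-!
Elementwise spherical subgroups of even Artin groups.
-/

set_option autoImplicit false

namespace Pool.Agent.EvA

open Pool.Agent.ArtSph Pool.Agent.FBuild Polynomial

variable {B : Type} {M : CoxeterMatrix B}

open Classical in
/-- The trace condition for a pair of generators. -/
noncomputable def tu (hM : EvM M) (s t : B) (h : Art M) : ℤ[X] :=
  if hc : s ≠ t ∧ M s t ≠ 0 then
    tau (M s t / 2) (al hM s t hc.1 (M s t / 2) (by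
      obtain ⟨k, hk⟩ := hM s t hc.1
      omega) h).left
  else 2

theorem half_ne (hM : EvM M) {s t : B} (hc : s ≠ t ∧ M s t ≠ 0) : M s t / 2 ≠ 0 := by
  obtain ⟨k, hk⟩ := hM s t hc.1
  omega

theorem tu_fin (hM : EvM M) (s t : B) (x y : Art M) (hx : dg hM t x = 1) (hy : dg hM t y = 1)
    (h : tu hM s t x ≠ 2 ∨ tu hM s t y ≠ 2) : {n : ℕ | tu hM s t (x ^ n * y) = 2}.Finite := by
  unfold tu at *
  by_cases hc : s ≠ t ∧ M s t ≠ 0
  · simp only [dif_pos hc] at *
    have : NeZero (M s t / 2) := ⟨half_ne hM hc⟩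
    exact tau_fin hM s t hc.1 _ _ x y hx hy h
  · simp only [dif_neg hc] at h
    rcases h with h | h <;> exact absurd rfl h

theorem tu_conj_mem (hM : EvM M) (s t : B) {T : Set B} (ht : t ∉ T) (y g : Art M)
    (hy : y ∈ Subgroup.closure (ag M '' T)) : tu hM s t (g * y * g⁻¹) = 2 := by
  unfold tu
  by_cases hc : s ≠ t ∧ M s t ≠ 0
  · rw [dif_pos hc]
    exact tau_conj_mem hM s t hc.1 _ _ ht y g hy
  · rw [dif_neg hc]

theorem tu_two (hM : EvM M) {s t : B} (hc : s ≠ t ∧ M s t ≠ 0) (h : Art M) (hd : dg hM t h = 1)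
    (h2 : tu hM s t h = 2) :
    ∃ a ∈ Subgroup.closure (ag M '' {s, t}), ∃ m : ℤ, rt hM {s, t} h = a * ag M s ^ m * a⁻¹ := by
  unfold tu at h2
  rw [dif_pos hc] at h2
  have : NeZero (M s t / 2) := ⟨half_ne hM hc⟩
  exact tau_two hM s t hc.1 _ _ h hd h2

theorem Sph_mono {X Y : Set B} (h : Y ⊆ X) (hX : Sph M X) : Sph M Y :=
  Set.Finite.subset hX (Subgroup.closure_mono (Set.image_mono h))

theorem rt_conj (hM : EvM M) (T : Set B) (g k : Art M) :
    rt hM T (g * k * g⁻¹) = rt hM T g * rt hM T k * (rt hM T g)⁻¹ := by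
  rw [map_mul, map_mul, map_inv]

/-- A generator of degree zero can be removed. -/
theorem step_out [Fintype B] (hM : EvM M) {X : Set B} (hX : Sph M X) {s : B} (hs : s ∈ X)
    {g k : Art M} (hk : k ∈ Subgroup.closure (ag M '' X)) (hd : dg hM s k = 1)
    (ht : ∀ t ∈ X, t ≠ s → tu hM t s (g * k * g⁻¹) = 2) :
    ∃ a, a⁻¹ * k * a ∈ Subgroup.closure (ag M '' (X \ {s})) := by
  by_cases hc : ∀ t ∈ X, t ≠ s → M s t = 2
  · exact ⟨1, by simpa using split_one hM hs hc hk hd⟩
  · push Not at hc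
    obtain ⟨t, htX, hts, h2⟩ := hc
    have hcs : ∀ u ∈ X, u ≠ s → u ≠ t → M s u = 2 := fun u hu h1 h3 =>
      no_fork hX hM hs htX hu hts.symm h1.symm h3.symm h2
    have hct : ∀ u ∈ X, u ≠ s → u ≠ t → M t u = 2 := fun u hu h1 h3 =>
      no_fork hX hM htX hs hu hts h3.symm h1.symm (by rw [M.symmetric]; exact h2)
    obtain ⟨k', hk', hkk, hcm⟩ := split_two hM hs htX hcs hct hk
    have hcond : t ≠ s ∧ M t s ≠ 0 := ⟨hts, lab_fin hX htX hs⟩
    have hd' : dg hM s (g * k * g⁻¹) = 1 := by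
      rw [map_mul, map_mul, hd, mul_one, map_inv, mul_inv_cancel]
    obtain ⟨a, ha, m, hm⟩ := tu_two hM hcond _ hd' (ht t htX hts)
    have hpair : ({t, s} : Set B) = {s, t} := Set.pair_comm _ _
    rw [hpair] at ha hm
    rw [rt_conj] at hm
    have hg : rt hM {s, t} g ∈ Subgroup.closure (ag M '' ({s, t} : Set B)) := by
      have h5 : g ∈ Subgroup.closure (ag M '' (Set.univ : Set B)) := by
        rw [Set.image_univ]
        have : Subgroup.closure (Set.range (ag M)) = ⊤ := PresentedGroup.closure_range_of _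
        rw [this]; trivial
      have h6 := rt_mem hM (T := {s, t}) h5
      rwa [Set.univ_inter] at h6
    set b := (rt hM {s, t} g)⁻¹ * a with hb
    have hbm : b ∈ Subgroup.closure (ag M '' ({s, t} : Set B)) :=
      Subgroup.mul_mem _ (Subgroup.inv_mem _ hg) ha
    have h7 : rt hM {s, t} k = b * ag M t ^ m * b⁻¹ := by
      have h8 : rt hM {s, t} k = (rt hM {s, t} g)⁻¹ *
          (rt hM {s, t} g * rt hM {s, t} k * (rt hM {s, t} g)⁻¹) * rt hM {s, t} g := by group
      rw [h8, hm, hb]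
      group
    refine ⟨b, ?_⟩
    have h9 : b⁻¹ * k * b = ag M t ^ m * k' := by
      rw [hkk, h7]
      have h10 := hcm b hbm
      calc b⁻¹ * (b * ag M t ^ m * b⁻¹ * k') * b = ag M t ^ m * (b⁻¹ * (k' * b)) := by group
        _ = ag M t ^ m * k' := by rw [← h10]; group
    rw [h9]
    apply Subgroup.mul_mem
    · apply Subgroup.zpow_mem
      exact Subgroup.subset_closure ⟨t, ⟨htX, by simpa using hts⟩, rfl⟩
    · apply Subgroup.closure_mono _ hk'
      apply Set.image_mono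
      rintro x ⟨h1, h3⟩
      refine ⟨h1, fun h4 => h3 ?_⟩
      rw [Set.mem_singleton_iff] at h4
      simp [h4]

/-- The generic element. -/
theorem exists_generic [Fintype B] (hM : EvM M) (H : Subgroup (Art M)) :
    ∃ x ∈ H, (∀ s, dg hM s x = 1 → ∀ h ∈ H, dg hM s h = 1) ∧
      ∀ s t, (∀ h ∈ H, dg hM t h = 1) → tu hM s t x = 2 → ∀ h ∈ H, tu hM s t h = 2 := by
  classical
  let C : B ⊕ (B × B) → Art M → Prop := fun i h =>
    match i with
    | Sum.inl s => dg hM s h ≠ 1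
    | Sum.inr p => tu hM p.1 p.2 h ≠ 2
  let S : Finset (B ⊕ (B × B)) := Finset.univ.filter (fun i =>
    (∃ y ∈ H, C i y) ∧ match i with
      | Sum.inl _ => True
      | Sum.inr p => ∀ h ∈ H, dg hM p.2 h = 1)
  obtain ⟨x, hx, hx'⟩ := sim H S C (by
    intro i hi x hx y hy hxy
    rw [Finset.mem_filter] at hi
    rcases i with s | p
    · have h1 := dg_fin hM s x y hxy
      refine h1.subset ?_
      intro n hn
      by_contra h2
      exact hn h2
    · have h1 := tu_fin hM p.1 p.2 x y (hi.2.2 x hx) (hi.2.2 y hy) hxy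
      refine h1.subset ?_
      intro n hn
      by_contra h2
      exact hn h2) (by
    intro i hi
    exact (Finset.mem_filter.1 hi).2.1)
  refine ⟨x, hx, ?_, ?_⟩
  · intro s hs h hh
    by_contra hne
    exact hx' (Sum.inl s) (Finset.mem_filter.2 ⟨Finset.mem_univ _, ⟨h, hh, hne⟩, trivial⟩) hs
  · intro s t ht hs h hh
    by_contra hne
    exact hx' (Sum.inr (s, t)) (Finset.mem_filter.2 ⟨Finset.mem_univ _, ⟨h, hh, hne⟩, ht⟩) hs

/-- The theorem. -/
theorem even_main [Fintype B] (hM : EvM M) (H : Subgroup (Art M)) (hH : ES M H) :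
    ∃ T : Set B, Sph M T ∧ ∀ h ∈ H, ∃ g, h = g * rt hM T h * g⁻¹ := by
  obtain ⟨x, hx, hdx, htx⟩ := exists_generic hM H
  obtain ⟨T, hT, g₀, hg₀⟩ := hH x hx
  have hx0 : x = g₀ * (g₀⁻¹ * x * g₀) * g₀⁻¹ := conj_split g₀ x
  have hdT : ∀ s, s ∉ T → ∀ h ∈ H, dg hM s h = 1 := by
    intro s hs
    apply hdx
    rw [hx0, map_mul, map_mul, dg_mem hM hs hg₀, mul_one, map_inv, mul_inv_cancel]
  have htT : ∀ s t, t ∉ T → ∀ h ∈ H, tu hM s t h = 2 := by
    intro s t ht
    apply htx s t (hdT t ht)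
    rw [hx0]
    exact tu_conj_mem hM s t ht _ _ hg₀
  refine ⟨T, hT, ?_⟩
  intro h hh
  classical
  -- the least spherical subset into which `h` is conjugate
  have hex : ∃ n : ℕ, ∃ X : Set B, X.ncard = n ∧ Sph M X ∧
      ∃ g, g⁻¹ * h * g ∈ Subgroup.closure (ag M '' X) := by
    obtain ⟨X, hX, g, hg⟩ := hH h hh
    exact ⟨X.ncard, X, rfl, hX, g, hg⟩
  obtain ⟨X, hXn, hX, g, hg⟩ := Nat.find_spec hex
  have hmin := fun m hm => Nat.find_min (m := m) hex hm
  have hXT : X ⊆ T := by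
    intro s hs
    by_contra hsT
    have h1 : h = g * (g⁻¹ * h * g) * g⁻¹ := conj_split g h
    obtain ⟨a, ha⟩ := step_out hM hX hs (g := g) hg (by
      rw [map_mul, map_mul, hdT s hsT h hh, mul_one, map_inv, inv_mul_cancel]) (by
      intro t _ _
      rw [← h1]
      exact htT t s hsT h hh)
    refine hmin (X \ {s}).ncard ?_ ⟨X \ {s}, rfl, Sph_mono Set.diff_subset hX, g * a, ?_⟩
    · rw [← hXn]
      exact Set.ncard_diff_singleton_lt_of_mem hs (Set.toFinite X)
    · have h2 : (g * a)⁻¹ * h * (g * a) = a⁻¹ * (g⁻¹ * h * g) * a := by group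
      rw [h2]
      exact ha
  have h3 : rt hM T (g⁻¹ * h * g) = g⁻¹ * h * g :=
    rt_fix hM (Subgroup.closure_mono (Set.image_mono hXT) hg)
  refine ⟨g * (rt hM T g)⁻¹, ?_⟩
  have h4 : rt hM T h = rt hM T g * (g⁻¹ * h * g) * (rt hM T g)⁻¹ := by
    rw [← h3]
    simp only [map_mul, map_inv]
    group
  rw [h4]
  group

end Pool.Agent.EvA
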