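import Pool.Agent.ArtSph.Embed

/-!
Even Artin groups: retractions and degrees.
-/

set_option autoImplicit false

namespace Pool.Agent.EvA

open Pool.Agent.ArtSph Pool.Agent.FBuild

variable {B : Type} {M : CoxeterMatrix B}

/-- All labels are even or infinite (infinite is `0`). -/
def EvM (M : CoxeterMatrix B) : Prop := ∀ i j, i ≠ j → Even (M i j)

/-- A map of the generators to a group extends to an even Artin group if `(f i * f j) ^ k =
(f j * f i) ^ k` whenever `M i j = 2 * k`, `k ≠ 0`. -/
theorem even_rel {G : Type} [Group G] (hM : EvM M) (f : B → G)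
    (h : ∀ i j k, i ≠ j → M i j = 2 * k → k ≠ 0 → (f i * f j) ^ k = (f j * f i) ^ k) (i j : B)
    (hij : M i j ≠ 0) : altM (f i) (f j) (M i j) = altM (f j) (f i) (M i j) := by
  by_cases hne : i = j
  · rw [hne]
  · obtain ⟨k, hk⟩ := hM i j hne
    have hk' : M i j = 2 * k := by omega
    rw [hk', altM_even, altM_even]
    exact h i j k hne hk' (by omega)

open Classical in
/-- The standard retraction. -/
noncomputable def rt (hM : EvM M) (T : Set B) : Art M →* Art M :=
  artLift (fun i => if i ∈ T then ag M i else 1) (even_rel hM _ (by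
    intro i j k hij hk hk0
    have h1 := art_braid M i j (by omega)
    rw [hk, altM_even, altM_even] at h1
    by_cases hi : i ∈ T <;> by_cases hj : j ∈ T <;> simp [hi, hj, h1]))

theorem rt_in (hM : EvM M) {T : Set B} {i : B} (h : i ∈ T) : rt hM T (ag M i) = ag M i := by
  unfold rt
  rw [artLift_ag, if_pos h]

theorem rt_out (hM : EvM M) {T : Set B} {i : B} (h : i ∉ T) : rt hM T (ag M i) = 1 := by
  unfold rt
  rw [artLift_ag, if_neg h]

-- BEGIN fix
/-- ROW fix. `Subgroup.closure_induction`. -/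
theorem rt_fix (hM : EvM M) {T : Set B} {a : Art M} (h : a ∈ Subgroup.closure (ag M '' T)) :
    rt hM T a = a := by
  induction h using Subgroup.closure_induction with
  | mem x hx =>
    obtain ⟨i, hi, rfl⟩ := hx
    exact rt_in hM hi
  | one => exact map_one _
  | mul x y _ _ hx hy => rw [map_mul, hx, hy]
  | inv x _ hx => rw [map_inv, hx]
-- END fix

-- BEGIN rmm
/-- ROW rmm. `Subgroup.closure_induction`. -/
theorem rt_mem (hM : EvM M) {T X : Set B} {a : Art M} (h : a ∈ Subgroup.closure (ag M '' X)) :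
    rt hM T a ∈ Subgroup.closure (ag M '' (X ∩ T)) := by
  induction h using Subgroup.closure_induction with
  | mem x hx =>
    obtain ⟨i, hi, rfl⟩ := hx
    by_cases hT : i ∈ T
    · rw [rt_in hM hT]
      exact Subgroup.subset_closure ⟨i, ⟨hi, hT⟩, rfl⟩
    · rw [rt_out hM hT]
      exact Subgroup.one_mem _
  | one =>
    rw [map_one]
    exact Subgroup.one_mem _
  | mul x y _ _ hx hy =>
    rw [map_mul]
    exact Subgroup.mul_mem _ hx hy
  | inv x _ hx =>
    rw [map_inv]
    exact Subgroup.inv_mem _ hx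
-- END rmm

open Classical in
/-- The degree in the generator `s`. -/
noncomputable def dg (hM : EvM M) (s : B) : Art M →* Multiplicative ℤ :=
  artLift (fun i => if i = s then Multiplicative.ofAdd 1 else 1) (even_rel hM _ (by
    intro i j k hij hk hk0
    rw [mul_comm]))

theorem dg_self (hM : EvM M) (s : B) : dg hM s (ag M s) = Multiplicative.ofAdd 1 := by
  unfold dg
  rw [artLift_ag, if_pos rfl]

theorem dg_ne (hM : EvM M) {s i : B} (h : i ≠ s) : dg hM s (ag M i) = 1 := by
  unfold dg
  rw [artLift_ag, if_neg h]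

-- BEGIN dmm
/-- ROW dmm. `Subgroup.closure_induction`. -/
theorem dg_mem (hM : EvM M) {s : B} {X : Set B} (hs : s ∉ X) {a : Art M}
    (h : a ∈ Subgroup.closure (ag M '' X)) : dg hM s a = 1 := by
  induction h using Subgroup.closure_induction with
  | mem x hx =>
    obtain ⟨i, hi, rfl⟩ := hx
    exact dg_ne hM fun hc => hs (hc ▸ hi)
  | one => exact map_one _
  | mul x y _ _ hx hy => rw [map_mul, hx, hy, one_mul]
  | inv x _ hx => rw [map_inv, hx, inv_one]
-- END dmm

-- BEGIN fin
/-- ROW fin. The degree condition: `d (x ^ n * y) = n d(x) + d(y)`; if it is `0` for two different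
`n` then `d(x) = 0` and `d(y) = 0`. -/
theorem dg_fin (hM : EvM M) (s : B) (x y : Art M) (h : dg hM s x ≠ 1 ∨ dg hM s y ≠ 1) :
    {n : ℕ | dg hM s (x ^ n * y) = 1}.Finite := by
  have key : ∀ n : ℕ, dg hM s (x ^ n * y) = 1 →
      (n : ℤ) * Multiplicative.toAdd (dg hM s x) + Multiplicative.toAdd (dg hM s y) = 0 := by
    intro n hn
    rw [map_mul, map_pow] at hn
    have h1 := congrArg Multiplicative.toAdd hn
    rw [toAdd_mul, toAdd_pow, toAdd_one, nsmul_eq_mul] at h1
    exact h1
  refine Set.Subsingleton.finite ?_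
  intro n hn m hm
  have h1 := key n hn
  have h2 := key m hm
  by_contra hne
  have hx : Multiplicative.toAdd (dg hM s x) = 0 := by
    have h3 : ((n : ℤ) - m) * Multiplicative.toAdd (dg hM s x) = 0 := by linarith
    rcases mul_eq_zero.1 h3 with h4 | h4
    · exact absurd (by omega) hne
    · exact h4
  have hy : Multiplicative.toAdd (dg hM s y) = 0 := by
    rw [hx, mul_zero, zero_add] at h1
    exact h1
  rcases h with h | h
  · exact h (toAdd_eq_zero.1 hx)
  · exact h (toAdd_eq_zero.1 hy)
-- END fin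

-- BEGIN spl
/-- ROW spl. `s` commutes with the rest of `X` (`M s t = 2`, so `ag s` and `ag t` commute by
`art_braid`): every element of `A_X` is `ag s ^ m * k'`, `k'` in `A_(X - s)` (closure induction), and
`dg s = 1` gives `m = 0`. -/
theorem split_one (hM : EvM M) {X : Set B} {s : B} (hs : s ∈ X)
    (hc : ∀ t ∈ X, t ≠ s → M s t = 2) {a : Art M} (ha : a ∈ Subgroup.closure (ag M '' X))
    (hd : dg hM s a = 1) : a ∈ Subgroup.closure (ag M '' (X \ {s})) := by
  have hcomm : ∀ k ∈ Subgroup.closure (ag M '' (X \ {s})), Commute (ag M s) k := by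
    intro k hk
    induction hk using Subgroup.closure_induction with
    | mem x hx =>
      obtain ⟨t, ht, rfl⟩ := hx
      have h2 : M s t = 2 * 1 := hc t ht.1 (by simpa using ht.2)
      have h1 := art_braid M s t (by omega)
      rw [h2, altM_even, altM_even, pow_one, pow_one] at h1
      exact h1
    | one => exact Commute.one_right _
    | mul x y _ _ hx hy => exact hx.mul_right hy
    | inv x _ hx => exact hx.inv_right
  have hform : ∃ (m : ℤ) (k : Art M), k ∈ Subgroup.closure (ag M '' (X \ {s})) ∧ a = ag M s ^ m * k := by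
    clear hd
    induction ha using Subgroup.closure_induction with
    | mem x hx =>
      obtain ⟨t, ht, rfl⟩ := hx
      by_cases hts : t = s
      · exact ⟨1, 1, Subgroup.one_mem _, by rw [hts]; simp⟩
      · exact ⟨0, ag M t, Subgroup.subset_closure ⟨t, ⟨ht, by simpa using hts⟩, rfl⟩, by simp⟩
    | one => exact ⟨0, 1, Subgroup.one_mem _, by simp⟩
    | mul x y _ _ hx hy =>
      obtain ⟨m, k, hk, rfl⟩ := hx
      obtain ⟨n, l, hl, rfl⟩ := hy
      refine ⟨m + n, k * l, Subgroup.mul_mem _ hk hl, ?_⟩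
      have h1 : k * ag M s ^ n = ag M s ^ n * k := ((hcomm k hk).zpow_left n).eq.symm
      calc ag M s ^ m * k * (ag M s ^ n * l) = ag M s ^ m * (k * ag M s ^ n) * l := by group
        _ = ag M s ^ (m + n) * (k * l) := by rw [h1]; group
    | inv x _ hx =>
      obtain ⟨m, k, hk, rfl⟩ := hx
      refine ⟨-m, k⁻¹, Subgroup.inv_mem _ hk, ?_⟩
      have h1 : k⁻¹ * ag M s ^ (-m) = ag M s ^ (-m) * k⁻¹ := ((hcomm k hk).inv_right.zpow_left (-m)).eq.symm
      rw [← h1]
      group
  obtain ⟨m, k, hk, hak⟩ := hform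
  have hdk : dg hM s k = 1 := dg_mem hM (by simp) hk
  have h0 : m = 0 := by
    rw [hak, map_mul, map_zpow, dg_self, hdk, mul_one, ← ofAdd_zsmul] at hd
    have h2 : m • (1 : ℤ) = 0 := Multiplicative.ofAdd.injective hd
    simpa using h2
  rw [hak, h0, zpow_zero, one_mul]
  exact hk
-- END spl

-- BEGIN sp2
/-- ROW sp2. `s`, `t` commute with the rest of `X`: `a = rt {s,t} a * a'` with `a'` in
`A_(X - {s,t})` commuting with `A_{s,t}` (closure induction for `a = u * a'`, `u` in `A_{s,t}`, then
`rt {s,t}`: `rt_fix` and `rt_mem` with the empty intersection). -/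
theorem split_two (hM : EvM M) {X : Set B} {s t : B} (hs : s ∈ X) (ht : t ∈ X)
    (hcs : ∀ u ∈ X, u ≠ s → u ≠ t → M s u = 2) (hct : ∀ u ∈ X, u ≠ s → u ≠ t → M t u = 2)
    {a : Art M} (ha : a ∈ Subgroup.closure (ag M '' X)) :
    ∃ a' ∈ Subgroup.closure (ag M '' (X \ {s, t})), a = rt hM {s, t} a * a' ∧
      ∀ u ∈ Subgroup.closure (ag M '' {s, t}), u * a' = a' * u := by
  have hg : ∀ x y : B, M x y = 2 → ag M x * ag M y = ag M y * ag M x := by
    intro x y hxy
    have h1 := art_braid M x y (by omega)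
    rw [show M x y = 2 * 1 by omega, altM_even, altM_even, pow_one, pow_one] at h1
    exact h1
  have hgen : ∀ x ∈ ({s, t} : Set B), ∀ y ∈ X \ {s, t}, ag M x * ag M y = ag M y * ag M x := by
    intro x hx y hy
    have hy1 : y ≠ s := fun h => hy.2 (Or.inl h)
    have hy2 : y ≠ t := fun h => hy.2 (Or.inr h)
    rcases hx with rfl | hx
    · exact hg _ _ (hcs y hy.1 hy1 hy2)
    · rw [hx]
      exact hg _ _ (hct y hy.1 hy1 hy2)
  have hcomm : ∀ v ∈ Subgroup.closure (ag M '' (X \ {s, t})),
      ∀ u ∈ Subgroup.closure (ag M '' {s, t}), u * v = v * u := by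
    intro v hv u hu
    have h1 : Subgroup.closure (ag M '' (X \ {s, t})) ≤ Subgroup.centralizer (ag M '' {s, t}) := by
      rw [Subgroup.closure_le]
      rintro _ ⟨y, hy, rfl⟩
      rw [SetLike.mem_coe, Subgroup.mem_centralizer_iff]
      rintro _ ⟨x, hx, rfl⟩
      exact hgen x hx y hy
    have h2 : Subgroup.closure (ag M '' {s, t}) ≤
        Subgroup.centralizer (Subgroup.closure (ag M '' (X \ {s, t})) : Set (Art M)) := by
      rw [Subgroup.closure_le]
      rintro x hx
      rw [SetLike.mem_coe, Subgroup.mem_centralizer_iff]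
      intro y hy
      exact ((Subgroup.mem_centralizer_iff.mp (h1 hy)) x hx).symm
    exact (Subgroup.mem_centralizer_iff.mp (h2 hu) v hv).symm
  have hsplit : ∃ u ∈ Subgroup.closure (ag M '' {s, t}),
      ∃ v ∈ Subgroup.closure (ag M '' (X \ {s, t})), a = u * v := by
    induction ha using Subgroup.closure_induction with
    | mem x hx =>
      obtain ⟨i, hi, rfl⟩ := hx
      by_cases h1 : i ∈ ({s, t} : Set B)
      · exact ⟨_, Subgroup.subset_closure ⟨i, h1, rfl⟩, 1, Subgroup.one_mem _, (mul_one _).symm⟩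
      · exact ⟨1, Subgroup.one_mem _, _, Subgroup.subset_closure ⟨i, ⟨hi, h1⟩, rfl⟩,
          (one_mul _).symm⟩
    | one => exact ⟨1, Subgroup.one_mem _, 1, Subgroup.one_mem _, (mul_one _).symm⟩
    | mul x y _ _ hx hy =>
      obtain ⟨u, hu, v, hv, rfl⟩ := hx
      obtain ⟨u', hu', v', hv', rfl⟩ := hy
      refine ⟨u * u', Subgroup.mul_mem _ hu hu', v * v', Subgroup.mul_mem _ hv hv', ?_⟩
      have h1 := hcomm v hv u' hu'
      rw [mul_assoc, ← mul_assoc v, ← h1]
      group
    | inv x _ hx =>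
      obtain ⟨u, hu, v, hv, rfl⟩ := hx
      refine ⟨u⁻¹, Subgroup.inv_mem _ hu, v⁻¹, Subgroup.inv_mem _ hv, ?_⟩
      rw [mul_inv_rev]
      exact (hcomm v⁻¹ (Subgroup.inv_mem _ hv) u⁻¹ (Subgroup.inv_mem _ hu)).symm
  obtain ⟨u, hu, v, hv, rfl⟩ := hsplit
  refine ⟨v, hv, ?_, fun w hw => hcomm v hv w hw⟩
  have h1 : rt hM {s, t} v = 1 := by
    have h2 := rt_mem hM (T := {s, t}) hv
    have h3 : (X \ {s, t}) ∩ {s, t} = (∅ : Set B) := by
      ext x
      constructor
      · rintro ⟨hx1, hx2⟩
        exact hx1.2 hx2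
      · intro hx
        exact absurd hx (Set.notMem_empty x)
    rw [h3, Set.image_empty, Subgroup.closure_empty] at h2
    exact Subgroup.mem_bot.mp h2
  rw [map_mul, rt_fix hM hu, h1, mul_one]
-- END sp2

end Pool.Agent.EvA
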